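import Mathlib

set_option autoImplicit false

namespace Pool.Agent.Results.MP_6b0309_co.Grid6

open MeasureTheory Set

lemma trap {C : Set (ℝ × ℝ)} (hC : Convex ℝ C) {y z a b a' b' : ℝ} (hyz : y < z) (hab : a ≤ b)
    (hab' : a' ≤ b') (h1 : (y, a) ∈ C) (h2 : (y, b) ∈ C) (h3 : (z, a') ∈ C) (h4 : (z, b') ∈ C) :
    volume (C ∩ {p | p.1 < y}) + ENNReal.ofReal ((b - a + (b' - a')) / 2 * (z - y)) ≤
      volume (C ∩ {p | p.1 < z}) := by
  have hd : 0 < z - y := by linarith
  let f : ℝ → ℝ := fun x => a + (x - y) / (z - y) * (a' - a)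
  let g : ℝ → ℝ := fun x => b + (x - y) / (z - y) * (b' - b)
  have cf : Continuous f := by fun_prop
  have cg : Continuous g := by fun_prop
  have hs : ∀ x ∈ Ioo y z, 0 ≤ (x - y) / (z - y) ∧ (x - y) / (z - y) ≤ 1 := fun x hx =>
    ⟨div_nonneg (by linarith [hx.1]) hd.le, (div_le_one hd).2 (by linarith [hx.2])⟩
  have hv : volume (regionBetween f g (Ioo y z)) =
      ENNReal.ofReal ((b - a + (b' - a')) / 2 * (z - y)) := by
    rw [Measure.volume_eq_prod, volume_regionBetween_eq_integral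
      (cf.integrableOn_Icc.mono_set Ioo_subset_Icc_self)
      (cg.integrableOn_Icc.mono_set Ioo_subset_Icc_self) measurableSet_Ioo
      (fun x hx => by have := hs x hx; simp only [f, g]; nlinarith)]
    congr 1
    rw [← integral_Ioc_eq_integral_Ioo, ← intervalIntegral.integral_of_le hyz.le]
    have : (g - f) = fun x => (b - a - y * ((b' - b - (a' - a)) / (z - y))) +
        ((b' - b - (a' - a)) / (z - y)) * x := by
      funext x; simp only [f, g, Pi.sub_apply]; field_simp; ring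
    rw [this, intervalIntegral.integral_add (by simp) (by apply Continuous.intervalIntegrable; fun_prop)]
    rw [intervalIntegral.integral_const, intervalIntegral.integral_const_mul, integral_id,
      smul_eq_mul]
    field_simp
    ring
  have seg : ∀ u u' : ℝ, (y, u) ∈ C → (z, u') ∈ C → ∀ x ∈ Ioo y z,
      (x, u + (x - y) / (z - y) * (u' - u)) ∈ C := by
    intro u u' hu hu' x hx
    have := hC.add_smul_sub_mem hu hu' (hs x hx)
    convert this using 1
    ext
    · simp; field_simp; ring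
    · simp
  have sub : regionBetween f g (Ioo y z) ⊆ C ∩ {p | p.1 < z} := by
    rintro ⟨x, w⟩ ⟨hx, hw⟩
    refine ⟨?_, hx.2⟩
    have hd' : 0 < g x - f x := by linarith [hw.1, hw.2]
    have := hC.add_smul_sub_mem (seg a a' h1 h3 x hx) (seg b b' h2 h4 x hx)
      (t := (w - f x) / (g x - f x))
      ⟨div_nonneg (by linarith [hw.1]) hd'.le, (div_le_one hd').2 (by linarith [hw.2])⟩
    convert this using 1
    ext
    · simp
    · show w = f x + (w - f x) / (g x - f x) * (g x - f x)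
      field_simp; ring
  rw [← hv, ← measure_union (disjoint_left.2 fun p h h' => lt_asymm h.2 h'.1.1)
    (measurableSet_regionBetween cf.measurable cg.measurable measurableSet_Ioo)]
  exact measure_mono (union_subset (fun p h => ⟨h.1, h.2.trans hyz⟩) sub)

noncomputable def emb (p : Fin 6 × Fin 6) : ℝ × ℝ := ((p.1.val : ℝ) / 5, (p.2.val : ℝ) / 5)

lemma emb_inj : Function.Injective emb := by
  intro p q h
  simp only [emb, Prod.mk.injEq] at h
  have h1 : (p.1.val : ℝ) = q.1.val := by linarith [h.1]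
  have h2 : (p.2.val : ℝ) = q.2.val := by linarith [h.2]
  exact Prod.ext (Fin.ext (by exact_mod_cast h1)) (Fin.ext (by exact_mod_cast h2))

/-- doubled trapezoid sum along a decreasing list of rows -/
def ts (r : Fin 6 → ℕ) : List (Fin 6) → ℕ
  | j :: i :: l => if i < j ∧ 1 ≤ r i ∧ 1 ≤ r j then
      ts r (i :: l) + (r i + r j - 2) * (j.val - i.val) else 0
  | _ => 0

lemma comb' : ∀ a b c d e f : Fin 7, a.val + b.val + c.val + d.val + e.val + f.val = 13 →
    (([5, 4, 3, 2, 1, 0] : List (Fin 6)).sublists'.any fun l =>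
      decide (13 ≤ ts ![a.val, b.val, c.val, d.val, e.val, f.val] l)) = true := by
  decide +kernel

lemma comb : ∀ a < 7, ∀ b < 7, ∀ c < 7, ∀ d < 7, ∀ e < 7, ∀ f < 7, a + b + c + d + e + f = 13 →
    ∃ l ∈ ([5, 4, 3, 2, 1, 0] : List (Fin 6)).sublists', 13 ≤ ts ![a, b, c, d, e, f] l := by
  intro a ha b hb c hc d hd e he f hf h
  simpa using comb' ⟨a, ha⟩ ⟨b, hb⟩ ⟨c, hc⟩ ⟨d, hd⟩ ⟨e, he⟩ ⟨f, hf⟩ h

lemma main (S : Finset (Fin 6 × Fin 6)) (hS : S.card = 13) :
    ENNReal.ofReal (13 / 50) ≤ volume (convexHull ℝ (emb '' S)) := by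
  set C := convexHull ℝ (emb '' S)
  let R : Fin 6 → Finset (Fin 6) := fun i => Finset.univ.filter fun j => (i, j) ∈ S
  let r : Fin 6 → ℕ := fun i => (R i).card
  have row : ∀ i, 1 ≤ r i → ∃ a b : Fin 6, a.val + r i ≤ b.val + 1 ∧ emb (i, a) ∈ C ∧ emb (i, b) ∈ C := by
    intro i hi
    have hne : (R i).Nonempty := Finset.card_pos.1 hi
    have m : ∀ a ∈ R i, emb (i, a) ∈ C := fun a ha =>
      subset_convexHull _ _ ⟨_, (Finset.mem_filter.1 ha).2, rfl⟩
    refine ⟨(R i).min' hne, (R i).max' hne, ?_, m _ (Finset.min'_mem _ _), m _ (Finset.max'_mem _ _)⟩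
    have h1 : R i ⊆ Finset.Icc ((R i).min' hne) ((R i).max' hne) := fun x hx =>
      Finset.mem_Icc.2 ⟨Finset.min'_le _ _ hx, Finset.le_max' _ _ hx⟩
    have h2 := Finset.card_le_card h1
    have h3 : ((R i).min' hne).val ≤ ((R i).max' hne).val :=
      Fin.le_def.1 (Finset.min'_le_max' _ hne)
    rw [Fin.card_Icc] at h2
    simp only [r]
    omega
  have chain : ∀ (l : List (Fin 6)) (j : Fin 6), ENNReal.ofReal ((ts r (j :: l) : ℝ) / 50) ≤
      volume (C ∩ {p | p.1 < (j.val : ℝ) / 5}) := by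
    intro l
    induction l with
    | nil => intro j; simp [ts]
    | cons i l ih =>
      intro j
      rw [ts]
      split_ifs with h
      · obtain ⟨a, b, h1, h2, h3⟩ := row i h.2.1
        obtain ⟨a', b', h4, h5, h6⟩ := row j h.2.2
        have hij : i.val < j.val := h.1
        have hij' : (i.val : ℝ) < j.val := by exact_mod_cast hij
        have g1 : (a.val : ℝ) + r i ≤ b.val + 1 := by exact_mod_cast h1
        have g2 : (a'.val : ℝ) + r j ≤ b'.val + 1 := by exact_mod_cast h4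
        have g3 : (1 : ℝ) ≤ r i := by exact_mod_cast h.2.1
        have g4 : (1 : ℝ) ≤ r j := by exact_mod_cast h.2.2
        refine le_trans ?_ (trap (convex_convexHull _ _) (by linarith) (by linarith) (by linarith)
          h2 h3 h5 h6)
        rw [Nat.cast_add, add_div, ENNReal.ofReal_add (by positivity) (by positivity)]
        refine add_le_add (ih i) (ENNReal.ofReal_le_ofReal ?_)
        rw [Nat.cast_mul, Nat.cast_sub (by omega), Nat.cast_sub hij.le]
        push_cast
        nlinarith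
      · simp
  have hsum : ∑ i, r i = 13 := by
    rw [← hS, Finset.card_eq_sum_card_fiberwise (f := Prod.fst) (t := Finset.univ) (by simp)]
    refine Finset.sum_congr rfl fun i _ => Finset.card_nbij (fun j => (i, j)) ?_ ?_ ?_
    · intro j; simp [R]
    · intro a _ b _ h; exact (Prod.mk.inj h).2
    · rintro ⟨a, b⟩ h
      simp only [Finset.coe_filter, mem_ofPred_eq] at h
      exact ⟨b, by simp [R, ← h.2, h.1], by simp [← h.2]⟩
  have hr : ∀ i, r i < 7 := fun i => Nat.lt_succ_of_le (Finset.card_le_univ _)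
  rw [Fin.sum_univ_six] at hsum
  obtain ⟨l, -, hl⟩ := comb _ (hr 0) _ (hr 1) _ (hr 2) _ (hr 3) _ (hr 4) _ (hr 5) hsum
  rw [show ![r 0, r 1, r 2, r 3, r 4, r 5] = r by funext i; fin_cases i <;> rfl] at hl
  rcases l with _ | ⟨j, l⟩
  · simp [ts] at hl
  refine le_trans (ENNReal.ofReal_le_ofReal ?_) ((chain l j).trans (measure_mono inter_subset_left))
  have : (13 : ℝ) ≤ ts r (j :: l) := by exact_mod_cast hl
  linarith

/-- With `k = 13`, `α = 3`: every `13` points of the `6 × 6` grid have hull area above `1/4`. -/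
theorem result : ∃ (k α : ℕ) (d : ℝ) (P : Finset (ℝ × ℝ)), 3 ≤ α ∧ α ≤ k - 1 ∧ 0 < d ∧ d ≤ 1 ∧
    (P : Set (ℝ × ℝ)) ⊆ Icc 0 d ×ˢ Icc 0 d⁻¹ ∧ P.card = α * (k - 1) ∧
    ∀ T ⊆ P, T.card = k →
      ENNReal.ofReal (1 / (2 * ((α : ℝ) - 1))) < volume (convexHull ℝ (T : Set (ℝ × ℝ))) := by
  refine ⟨13, 3, 1, Finset.univ.map ⟨emb, emb_inj⟩, le_rfl, by norm_num, one_pos, le_rfl, ?_,
    by simp, fun T hT hc => ?_⟩
  · intro p hp
    obtain ⟨⟨a, b⟩, -, rfl⟩ := Finset.mem_map.1 hp
    have h1 : (a.val : ℝ) ≤ 5 := by exact_mod_cast Nat.le_of_lt_succ a.2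
    have h2 : (b.val : ℝ) ≤ 5 := by exact_mod_cast Nat.le_of_lt_succ b.2
    simp only [emb, Function.Embedding.coeFn_mk, inv_one, mem_prod, mem_Icc]
    exact ⟨⟨by positivity, by linarith⟩, by positivity, by linarith⟩
  · obtain ⟨S, -, rfl⟩ := Finset.subset_map_iff.1 hT
    rw [Finset.coe_map]
    refine lt_of_lt_of_le ((ENNReal.ofReal_lt_ofReal_iff (by norm_num)).2 (by norm_num))
      (main S (by simpa using hc))

end Pool.Agent.Results.MP_6b0309_co.Grid6
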